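import Pool.Agent.P.MP_81d17b_pr.St.Basic

/-! Cheap cycles in every class for a weighting without negative cycles. -/

namespace Pool.Agent.P.MP_81d17b_pr.To

open Finset Pool.Agent.P.MP_81d17b_pr.St
open scoped symmDiff

set_option linter.unusedSectionVars false

variable {V E : Type} [Fintype V] [DecidableEq V] [Fintype E] [DecidableEq E]

theorem z01 : ∀ c : ZMod 2, c = 0 ∨ c = 1 := by decide

/-- The class of an edge set. -/
def cl (φ : E → ZMod 2 × ZMod 2) (X : Finset E) : ZMod 2 × ZMod 2 := ∑ e ∈ X, φ e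

theorem two_self : ∀ a : ZMod 2 × ZMod 2, a + a = 0 := by decide

theorem cl_sdiff (φ : E → ZMod 2 × ZMod 2) {A X : Finset E} (h : X ⊆ A) :
    cl φ (A \ X) + cl φ X = cl φ A := sum_sdiff h

theorem wt_sdiff (w : E → ℝ) {A X : Finset E} (h : X ⊆ A) :
    wt w (A \ X) + wt w X = wt w A := sum_sdiff h

theorem bd_sdiff (G : Gr V E) {A X : Finset E} (h : X ⊆ A) :
    G.bd (A \ X) = G.bd A + G.bd X := by
  have : G.bd (A \ X) + G.bd X = G.bd A := sum_sdiff h
  rw [← this, add_assoc, fn_add_self, add_zero]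

theorem cl_symmDiff (φ : E → ZMod 2 × ZMod 2) (S P : Finset E) :
    cl φ (S ∆ P) = cl φ S + cl φ P := by
  have h1 : S ∆ P = (S \ P) ∪ (P \ S) := rfl
  have hd : Disjoint (S \ P) (P \ S) := disjoint_sdiff_sdiff
  have h2 : cl φ S = cl φ (S \ P) + cl φ (S ∩ P) := by
    unfold cl
    rw [← sum_union (disjoint_sdiff_inter S P), sdiff_union_inter]
  have h3 : cl φ P = cl φ (P \ S) + cl φ (S ∩ P) := by
    unfold cl
    rw [inter_comm, ← sum_union (disjoint_sdiff_inter P S), sdiff_union_inter]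
  have h4 : cl φ (S \ P ∪ P \ S) = cl φ (S \ P) + cl φ (P \ S) := sum_union hd
  rw [h1, h4, h2, h3]
  calc _ = cl φ (S \ P) + cl φ (P \ S) + (cl φ (S ∩ P) + cl φ (S ∩ P)) := by
        rw [two_self, add_zero]
    _ = _ := by abel

open Classical in
/-- The component of `p` in the edge set `Y`. -/
noncomputable def comp (G : Gr V E) (Y : Finset E) (p : V) : Finset V :=
  univ.filter fun y => G.Conn Y p y

theorem mem_comp {G : Gr V E} {Y : Finset E} {p y : V} : y ∈ comp G Y p ↔ G.Conn Y p y := by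
  simp [comp]

theorem comp_iff {G : Gr V E} {Y : Finset E} (p : V) {e : E} (he : e ∈ Y) :
    G.s e ∈ comp G Y p ↔ G.t e ∈ comp G Y p := by
  simp only [mem_comp]
  exact ⟨fun h => h.trans (Gr.conn_edge he), fun h => h.trans (Gr.conn_edge he).symm⟩

theorem partner (G : Gr V E) {Y : Finset E} {r : V} (h : G.bd Y r = 1) :
    ∃ s, s ≠ r ∧ G.bd Y s = 1 ∧ G.Conn Y r s := by
  by_contra hno
  push Not at hno
  have h1 := G.sum_bd (comp G Y r) Y
  rw [filter_false_of_mem, sum_eq_single r, h] at h1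
  · simp at h1
  · intro s hs hne
    rcases z01 (G.bd Y s) with h0 | h0
    · exact h0
    · exact absurd (mem_comp.1 hs) (hno s hne h0)
  · exact fun hh => absurd (mem_comp.2 (G.conn_refl Y r)) hh
  · intro e he
    have := comp_iff (G := G) r he
    unfold Gr.Cr
    tauto

theorem bd_filter (G : Gr V E) {Y P : Finset E} (hP : P ⊆ Y) (p z : V) :
    G.bd (P.filter (G.In (comp G Y p))) z = if z ∈ comp G Y p then G.bd P z else 0 := by
  simp only [Gr.bd, sum_filter, Finset.sum_apply]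
  split_ifs with hz
  · refine sum_congr rfl fun e he => ?_
    split_ifs with h
    · rfl
    · have := comp_iff (G := G) p (hP he)
      have h1 : G.s e ∉ comp G Y p := fun hh => h ⟨hh, this.1 hh⟩
      have h2 : G.t e ∉ comp G Y p := fun hh => h ⟨this.2 hh, hh⟩
      have h3 : z ≠ G.s e := fun hh => h1 (hh ▸ hz)
      have h4 : z ≠ G.t e := fun hh => h2 (hh ▸ hz)
      simp [pt, h3, h4]
  · refine sum_eq_zero fun e _ => ?_
    split_ifs with h
    · have h3 : z ≠ G.s e := fun hh => hz (hh ▸ h.1)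
      have h4 : z ≠ G.t e := fun hh => hz (hh ▸ h.2)
      simp [pt, h3, h4]
    · rfl

/-- Any two odd vertices of subsets of `B` are joined inside `B`. -/
def Cn (G : Gr V E) (B : Finset E) : Prop :=
  ∀ X ⊆ B, ∀ r s, G.bd X r = 1 → G.bd X s = 1 → G.Conn B r s

theorem conn_filter (G : Gr V E) {Y : Finset E} {p y : V} (hy : y ∈ comp G Y p) :
    G.Conn (Y.filter (G.In (comp G Y p))) p y := by
  obtain ⟨P, hP, hb⟩ := mem_comp.1 hy
  refine ⟨P.filter (G.In (comp G Y p)), filter_subset_filter _ hP, funext fun z => ?_⟩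
  rw [bd_filter G hP, hb]
  split_ifs with hz
  · rfl
  · have h3 : z ≠ p := fun hh => hz (hh ▸ mem_comp.2 (G.conn_refl Y _))
    have h4 : z ≠ y := fun hh => hz (hh ▸ hy)
    simp [pt, h3, h4]

theorem cn_filter (G : Gr V E) (Y : Finset E) (p : V) :
    Cn G (Y.filter (G.In (comp G Y p))) := by
  have key : ∀ X ⊆ Y.filter (G.In (comp G Y p)), ∀ r, G.bd X r = 1 → r ∈ comp G Y p := by
    intro X hX r hr
    by_contra hno
    have h1 := bd_filter G (hX.trans (filter_subset _ _)) p r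
    rw [if_neg hno, filter_true_of_mem fun e he => (mem_filter.1 (hX he)).2, hr] at h1
    exact one_ne_zero h1
  intro X hX r s hr hs
  exact (conn_filter G (key X hX r hr)).symm.trans (conn_filter G (key X hX s hs))

/-- Ear decomposition of a cycle against a connected set. -/
theorem ear (G : Gr V E) (φ : E → ZMod 2 × ZMod 2) (H : ZMod 2 × ZMod 2 → Prop)
    (hH : ∀ a b, H a → H b → H (a + b)) (p : V) (A B : Finset E) (hB : Cn G B) (n : ℕ) :
    ∀ Y : Finset E, (Y \ B).card ≤ n → Y ⊆ A ∪ B → G.bd Y = 0 → ¬ H (cl φ Y) →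
      ∃ P Q r s, P ⊆ A \ B ∧ Q ⊆ B ∧ G.bd P = pt r + pt s ∧ G.bd Q = pt r + pt s ∧
        ¬ H (cl φ P + cl φ Q) := by
  induction n using Nat.strong_induction_on with
  | _ n ih =>
  intro Y hn hY hb hc
  have hs : Y \ B ⊆ A \ B := fun e he => by
    have h1 := mem_sdiff.1 he
    have h2 := mem_union.1 (hY h1.1)
    exact mem_sdiff.2 ⟨h2.resolve_right h1.2, h1.2⟩
  have hbd : G.bd (Y ∩ B) = G.bd (Y \ B) := by
    have := G.bd_sdiff_add_inter Y B
    rw [hb] at this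
    calc _ = G.bd (Y \ B) + (G.bd (Y \ B) + G.bd (Y ∩ B)) := by
          rw [← add_assoc, fn_add_self, zero_add]
      _ = _ := by rw [← this, add_zero]
  by_cases h0 : G.bd (Y \ B) = 0
  · have h1 : cl φ Y = cl φ (Y \ B) + cl φ (Y ∩ B) := by
      unfold cl
      rw [← sum_union (disjoint_sdiff_inter Y B), sdiff_union_inter]
    refine ⟨Y \ B, Y ∩ B, p, p, hs, inter_subset_right, ?_, ?_, h1 ▸ hc⟩
    · rw [h0, fn_add_self]
    · rw [hbd, h0, fn_add_self]
  obtain ⟨r, hr⟩ := Function.ne_iff.1 h0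
  have hr1 : G.bd (Y \ B) r = 1 := (z01 _).resolve_left hr
  obtain ⟨s, hne, hs1, P, hP, hPb⟩ := partner G hr1
  obtain ⟨Q, hQ, hQb⟩ := hB (Y ∩ B) inter_subset_right r s (hbd ▸ hr1) (hbd ▸ hs1)
  by_cases h1 : H (cl φ P + cl φ Q)
  swap
  · exact ⟨P, Q, r, s, hP.trans hs, hQ, hPb, hQb, h1⟩
  have hPne : P.Nonempty := by
    rw [nonempty_iff_ne_empty]
    rintro rfl
    have := congrFun hPb r
    simp [pt, hne.symm] at this
  have hsub : ((Y ∆ P) ∆ Q) \ B ⊆ (Y \ B) \ P := by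
    intro e he
    have h2 := mem_sdiff.1 he
    have h3 : e ∉ Q := fun hh => h2.2 (hQ hh)
    have h4 := h2.1
    simp only [mem_symmDiff, h3, not_false_eq_true, and_true, false_and, or_false] at h4
    rcases h4 with h4 | h4
    · exact mem_sdiff.2 ⟨mem_sdiff.2 ⟨h4.1, h2.2⟩, h4.2⟩
    · exact absurd (mem_sdiff.1 (hP h4.1)).1 h4.2
  have hlt : (((Y ∆ P) ∆ Q) \ B).card < n := by
    have h2 := card_le_card hsub
    have h3 := card_sdiff_add_card_eq_card hP
    have h4 := hPne.card_pos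
    omega
  refine ih _ hlt _ le_rfl ?_ ?_ ?_
  · intro e he
    by_cases hb' : e ∈ B
    · exact mem_union_right _ hb'
    · exact hY (mem_sdiff.1 (mem_sdiff.1 (hsub (mem_sdiff.2 ⟨he, hb'⟩))).1).1
  · rw [G.bd_symmDiff, G.bd_symmDiff, hb, hPb, hQb, zero_add, fn_add_self]
  · intro hh
    have := hH _ _ hh h1
    rw [cl_symmDiff, cl_symmDiff, add_assoc (cl φ Y), add_assoc, two_self, add_zero] at this
    exact hc this

section
variable {G : Gr V E} {w : E → ℝ} {m : ℝ} (hm : 0 ≤ m) (h0 : ∀ X, G.bd X = 0 → 0 ≤ wt w X)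
  (h1 : ∀ X r s, G.bd X = pt r + pt s → -m ≤ wt w X)
include hm h0 h1

theorem low (n : ℕ) : ∀ (W : Finset V) (Y : Finset E), W.card ≤ n → (∀ z, z ∉ W → G.bd Y z = 0) →
    -(n * m) ≤ 2 * wt w Y := by
  induction n using Nat.strong_induction_on with
  | _ n ih =>
  intro W Y hn hW
  by_cases hz : G.bd Y = 0
  · have := h0 Y hz
    have h2 : 0 ≤ n * m := by positivity
    linarith
  obtain ⟨r, hr⟩ := Function.ne_iff.1 hz
  have hr1 : G.bd Y r = 1 := (z01 _).resolve_left hr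
  obtain ⟨s, hne, hs1, P, hP, hPb⟩ := partner G hr1
  have hrW : r ∈ W := by
    by_contra hh
    exact hr (hW r hh)
  have hsW : s ∈ W.erase r := by
    refine mem_erase.2 ⟨hne, ?_⟩
    by_contra hh
    rw [hW s hh] at hs1
    exact zero_ne_one hs1
  have c1 := card_erase_add_one hrW
  have c2 := card_erase_add_one hsW
  obtain ⟨k, rfl⟩ : ∃ k, n = k + 2 := ⟨n - 2, by omega⟩
  have h2 := ih k (by omega) ((W.erase r).erase s) (Y \ P) (by omega) (by
    intro z hz
    rw [bd_sdiff G hP, hPb]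
    simp only [Pi.add_apply, pt]
    by_cases a1 : z = r
    · subst a1
      rw [hr1, if_pos rfl, if_neg hne.symm]
      decide
    · by_cases a2 : z = s
      · subst a2
        rw [hs1, if_neg a1, if_pos rfl]
        decide
      · rw [hW z fun hh => hz (mem_erase.2 ⟨a2, mem_erase.2 ⟨a1, hh⟩⟩), if_neg a1, if_neg a2]
        simp)
  have h3 := h1 P r s hPb
  have h4 := wt_sdiff w hP
  push_cast
  linarith

theorem seg {A X : Finset E} (hX : X ⊆ A) {a b c d e f : V} (hA : G.bd A = pt a + pt b)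
    (hb : G.bd X = pt c + pt d ∨ G.bd X = pt c + pt d + (pt e + pt f)) :
    wt w X ≤ wt w A + 3 * m := by
  have h2 := low hm h0 h1 6 {a, b, c, d, e, f} (A \ X) card_le_six (by
    intro z hz
    simp only [mem_insert, mem_singleton, not_or] at hz
    rw [bd_sdiff G hX, hA]
    rcases hb with hb | hb <;> simp [hb, pt, hz])
  have h4 := wt_sdiff w hX
  push_cast at h2
  linarith

omit hm h1 in
theorem sub_cyc (φ : E → ZMod 2 × ZMod 2) (n : ℕ) : ∀ C : Finset E, C.card ≤ n → G.bd C = 0 →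
    cl φ C ≠ 0 → ∃ B, Cn G B ∧ G.bd B = 0 ∧ cl φ B ≠ 0 ∧ wt w B ≤ wt w C := by
  induction n using Nat.strong_induction_on with
  | _ n ih =>
  intro C hn hb hc
  obtain ⟨e, he⟩ : C.Nonempty := by
    rw [nonempty_iff_ne_empty]
    rintro rfl
    exact hc rfl
  set B := C.filter (G.In (comp G C (G.s e))) with hB
  have hs : B ⊆ C := filter_subset _ _
  have b1 : G.bd B = 0 := funext fun z => by
    rw [hB, bd_filter G subset_rfl, hb]
    simp
  have b2 : G.bd (C \ B) = 0 := by rw [bd_sdiff G hs, hb, b1, add_zero]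
  have w1 := wt_sdiff w hs
  by_cases h : cl φ B = 0
  · have e1 : e ∈ B := mem_filter.2 ⟨he, mem_comp.2 (G.conn_refl _ _), mem_comp.2 (Gr.conn_edge he)⟩
    have c1 := card_sdiff_add_card_eq_card hs
    have c2 := card_pos.2 ⟨e, e1⟩
    have c3 := cl_sdiff φ hs
    rw [h, add_zero] at c3
    obtain ⟨B', k1, k2, k3, k4⟩ := ih (C \ B).card (by omega) _ le_rfl b2 (c3 ▸ hc)
    exact ⟨B', k1, k2, k3, by linarith [h0 B b1]⟩
  · exact ⟨B, cn_filter G C _, b1, h, by linarith [h0 _ b2]⟩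

theorem gen (p : V) (h2 : ∀ q, ∃ X, G.bd X = pt p + pt q ∧ wt w X ≤ m) (h3 : ∀ e, w e ≤ m)
    (φ : E → ZMod 2 × ZMod 2) (H : ZMod 2 × ZMod 2 → Prop) (hH0 : H 0)
    (hH : ∀ a b, H a → H b → H (a + b)) (Y : Finset E) (hY : G.bd Y = 0) (hc : ¬ H (cl φ Y)) :
    ∃ C, G.bd C = 0 ∧ ¬ H (cl φ C) ∧ wt w C ≤ 9 * m := by
  have h4 : ∀ q, ∃ X, Cn G X ∧ G.bd X = pt p + pt q ∧ wt w X ≤ m := by
    intro q
    obtain ⟨X, hX, hw⟩ := h2 q
    have hq : q ∈ comp G X p := mem_comp.2 ⟨X, subset_rfl, hX⟩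
    have hs : X.filter (G.In (comp G X p)) ⊆ X := filter_subset _ _
    have b1 : G.bd (X.filter (G.In (comp G X p))) = pt p + pt q := funext fun z => by
      rw [bd_filter G subset_rfl, hX]
      split_ifs with hz
      · rfl
      · have a1 : z ≠ p := fun hh => hz (hh ▸ mem_comp.2 (G.conn_refl X _))
        have a2 : z ≠ q := fun hh => hz (hh ▸ hq)
        simp [pt, a1, a2]
    refine ⟨_, cn_filter G X p, b1, ?_⟩
    have w1 := wt_sdiff w hs
    have w2 := h0 _ (show G.bd (X \ X.filter (G.In (comp G X p))) = 0 by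
      rw [bd_sdiff G hs, hX, b1, fn_add_self])
    linarith
  choose J j1 j2 j3 using h4
  obtain ⟨e, he⟩ : ∃ e, ¬ H (cl φ (J (G.s e)) + φ e + cl φ (J (G.t e))) := by
    by_contra hno
    push Not at hno
    have a1 : H (∑ e ∈ Y, (cl φ (J (G.s e)) + φ e + cl φ (J (G.t e)))) :=
      sum_induction _ H hH hH0 fun e _ => hno e
    have a2 : ∑ e ∈ Y, (cl φ (J (G.s e)) + cl φ (J (G.t e))) = ∑ z, G.bd Y z • cl φ (J z) := by
      simp only [Gr.bd, Finset.sum_apply, sum_smul]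
      rw [sum_comm]
      refine sum_congr rfl fun e _ => ?_
      simp [add_smul, sum_add_distrib, pt]
    have a3 : ∑ e ∈ Y, (cl φ (J (G.s e)) + φ e + cl φ (J (G.t e))) = cl φ Y := by
      simp only [add_right_comm _ (φ _)]
      rw [sum_add_distrib, a2, hY]
      simp [cl]
    exact hc (a3 ▸ a1)
  obtain ⟨P, Q, r, s, k1, k2, k3, k4, k5⟩ := ear G φ H hH p (insert e (J (G.s e))) (J (G.t e))
    (j1 _) _ ((J (G.s e) ∆ {e}) ∆ J (G.t e)) le_rfl (by
      intro f hf
      simp only [mem_symmDiff, mem_singleton, mem_union, mem_insert] at hf ⊢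
      tauto) (by
      rw [G.bd_symmDiff, G.bd_symmDiff, j2, j2, G.bd_singleton]
      calc _ = (pt p + pt p) + (pt (G.s e) + pt (G.s e)) + (pt (G.t e) + pt (G.t e)) := by abel
        _ = _ := by simp [fn_add_self]) (by
      rw [cl_symmDiff, cl_symmDiff]
      simpa [cl] using he)
  have hd : Disjoint P Q := disjoint_left.2 fun f hf hf' => (mem_sdiff.1 (k1 hf)).2 (k2 hf')
  refine ⟨P ∪ Q, by rw [G.bd_union hd, k3, k4, fn_add_self], ?_, ?_⟩
  · have : cl φ (P ∪ Q) = cl φ P + cl φ Q := sum_union hd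
    rwa [this]
  · have a1 : wt w (P ∪ Q) = wt w P + wt w Q := sum_union hd
    have a2 := seg hm h0 h1 k2 (e := p) (f := p) (j2 _) (Or.inl k4)
    have a3 : P.erase e ⊆ J (G.s e) := fun f hf => by
      have := mem_erase.1 hf
      exact (mem_insert.1 (mem_sdiff.1 (k1 this.2)).1).resolve_left this.1
    have a4 := j3 (G.s e)
    have a5 := j3 (G.t e)
    by_cases hP : e ∈ P
    · have a6 : wt w (P.erase e) + w e = wt w P := sum_erase_add _ _ hP
      have a7 := seg hm h0 h1 a3 (c := r) (d := s) (e := G.s e) (f := G.t e) (j2 _) (Or.inr (by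
        rw [← sdiff_singleton_eq_erase, bd_sdiff G (singleton_subset_iff.2 hP), k3,
          G.bd_singleton]))
      linarith [h3 e]
    · rw [erase_eq_of_notMem hP] at a3
      have a7 := seg hm h0 h1 a3 (e := p) (f := p) (j2 _) (Or.inl k3)
      linarith

/-- Every class contains a cycle of weight at most `24 m`. -/
theorem cheap (p : V) (h2 : ∀ q, ∃ X, G.bd X = pt p + pt q ∧ wt w X ≤ m) (h3 : ∀ e, w e ≤ m)
    (φ : E → ZMod 2 × ZMod 2) (hφ : ∀ c, ∃ Y, G.bd Y = 0 ∧ cl φ Y = c) (c : ZMod 2 × ZMod 2) :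
    ∃ X, G.bd X = 0 ∧ cl φ X = c ∧ wt w X ≤ 24 * m := by
  obtain ⟨Y, y1, y2⟩ := hφ (1, 0)
  obtain ⟨C, c1, c2, c3⟩ := gen hm h0 h1 p h2 h3 φ (fun a => a = 0) rfl
    (fun a b ha hb => by rw [ha, hb, add_zero]) Y y1 (by rw [y2]; decide)
  obtain ⟨B, b1, b2, b3, b4⟩ := sub_cyc h0 φ _ C le_rfl c1 c2
  have g1 : ∀ d a b : ZMod 2 × ZMod 2, (a = 0 ∨ a = d) → (b = 0 ∨ b = d) →
      (a + b = 0 ∨ a + b = d) := by decide
  have g2 : ∀ d : ZMod 2 × ZMod 2, ∃ x, ¬ (x = 0 ∨ x = d) := by decide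
  have g3 : ∀ d x c : ZMod 2 × ZMod 2, d ≠ 0 → ¬ (x = 0 ∨ x = d) →
      c = 0 ∨ c = d ∨ c = x ∨ c = x + d := by
    rintro ⟨d1, d2⟩ ⟨x1, x2⟩
    rcases z01 d1 with rfl | rfl <;> rcases z01 d2 with rfl | rfl <;>
      rcases z01 x1 with rfl | rfl <;> rcases z01 x2 with rfl | rfl <;> decide
  obtain ⟨x, hx⟩ := g2 (cl φ B)
  obtain ⟨Y', y3, y4⟩ := hφ x
  obtain ⟨C', d1, d2, d3⟩ := gen hm h0 h1 p h2 h3 φ (fun a => a = 0 ∨ a = cl φ B) (Or.inl rfl)
    (g1 _) Y' y3 (y4 ▸ hx)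
  obtain ⟨P, Q, r, s, k1, k2, k3, k4, k5⟩ := ear G φ (fun a => a = 0 ∨ a = cl φ B) (g1 _) p C' B
    b1 _ C' le_rfl subset_union_left d1 d2
  have e0 : ∀ X : Finset E, G.bd X = 0 → G.bd X = pt p + pt p := fun X hX => by
    rw [hX, fn_add_self]
  have a1 := seg hm h0 h1 (k1.trans sdiff_subset) (e := p) (f := p) (e0 _ d1) (Or.inl k3)
  have key : ∀ Q' ⊆ B, G.bd Q' = pt r + pt s →
      ∃ X, G.bd X = 0 ∧ cl φ X = cl φ P + cl φ Q' ∧ wt w X ≤ 24 * m := by
    intro Q' q1 q2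
    have hd : Disjoint P Q' := disjoint_left.2 fun f hf hf' => (mem_sdiff.1 (k1 hf)).2 (q1 hf')
    have a2 := seg hm h0 h1 q1 (e := p) (f := p) (e0 _ b2) (Or.inl q2)
    have a3 : wt w (P ∪ Q') = wt w P + wt w Q' := sum_union hd
    exact ⟨P ∪ Q', by rw [G.bd_union hd, k3, q2, fn_add_self], sum_union hd, by linarith⟩
  rcases g3 _ _ c b3 k5 with h | h | h | h
  · exact ⟨∅, G.bd_empty, h.symm, by simp only [wt, sum_empty]; positivity⟩
  · exact ⟨B, b2, h.symm, by linarith⟩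
  · rw [h]
    exact key Q k2 k4
  · obtain ⟨X, x1, x2, x3⟩ := key (B \ Q) sdiff_subset (by rw [bd_sdiff G k2, b2, zero_add, k4])
    refine ⟨X, x1, ?_, x3⟩
    rw [x2, h, ← cl_sdiff φ k2, add_assoc, add_comm (cl φ (B \ Q)) (cl φ Q), ← add_assoc (cl φ Q),
      two_self, zero_add]

end

end Pool.Agent.P.MP_81d17b_pr.To
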