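import Mathlib

/-! The Edwards-Anderson ground state energy on the discrete torus, with periodic or antiperiodic
boundary conditions. -/

namespace Pool.Agent.P.MP_81d17b_pr.To

/-- The sites of the torus `(Z/L)^2`. -/
abbrev Site (L : ℕ) : Type := ZMod L × ZMod L

/-- The bonds: `(z, false)` joins `z` to `z + (1,0)`, and `(z, true)` joins `z` to `z + (0,1)`. -/
abbrev Bond (L : ℕ) : Type := Site L × Bool

variable {L : ℕ}

/-- The other end of a bond. -/
def tip (e : Bond L) : Site L := if e.2 then e.1 + (0, 1) else e.1 + (1, 0)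

/-- The spin value of a Boolean. -/
def spin (b : Bool) : ℝ := if b then 1 else -1

/-- The energy of a configuration. -/
def ham [NeZero L] (J : Bond L → ℝ) (σ : Site L → Bool) : ℝ :=
  -∑ e, J e * spin (σ e.1) * spin (σ (tip e))

/-- The ground state energy. -/
noncomputable def ground [NeZero L] (J : Bond L → ℝ) : ℝ := ⨅ σ : Site L → Bool, ham J σ

/-- The bonds on the seams selected by `c`: the horizontal bonds from column `-1` to column `0` if
`c.1`, the vertical bonds from row `-1` to row `0` if `c.2`. -/
def OnSeam (c : Bool × Bool) (e : Bond L) : Prop :=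
  (c.1 = true ∧ e.2 = false ∧ e.1.1 = -1) ∨ (c.2 = true ∧ e.2 = true ∧ e.1.2 = -1)

instance (c : Bool × Bool) : DecidablePred (OnSeam (L := L) c) := fun e =>
  inferInstanceAs (Decidable
    ((c.1 = true ∧ e.2 = false ∧ e.1.1 = -1) ∨ (c.2 = true ∧ e.2 = true ∧ e.1.2 = -1)))

/-- The couplings for the boundary condition `c` (`true` = antiperiodic in that direction). -/
def twist (c : Bool × Bool) (J : Bond L → ℝ) : Bond L → ℝ :=
  fun e => if OnSeam c e then -J e else J e

end Pool.Agent.P.MP_81d17b_pr.To
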