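import Pool.Agent.P.MP_81d17b_pr.St.Nu
import Pool.Agent.P.MP_81d17b_pr.To.Ear
import Pool.Agent.P.MP_81d17b_pr.To.Model

/-! The dual torus, cuts and classes of cycles; the deterministic bound. -/

namespace Pool.Agent.P.MP_81d17b_pr.To

open Finset Pool.Agent.P.MP_81d17b_pr.St
open scoped symmDiff

variable {L : ℕ} [NeZero L]

omit [NeZero L] in
theorem one_ne (hL : 2 ≤ L) : (1 : ZMod L) ≠ 0 := by
  have : Fact (1 < L) := ⟨hL⟩
  exact one_ne_zero

/-- The graph of the unit squares; `z` is the square with corners `z` and `z + (1,1)`. -/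
def dualT (hL : 2 ≤ L) : Gr (Site L) (Bond L) where
  s e := e.1
  t e := if e.2 then e.1 - (1, 0) else e.1 - (0, 1)
  ne := by
    rintro ⟨z, _ | _⟩ h
    · have := congrArg Prod.snd h
      simp only [Bool.false_eq_true, if_false, Prod.snd_sub] at this
      exact one_ne hL (by linear_combination this)
    · have := congrArg Prod.fst h
      simp only [if_true, Prod.fst_sub] at this
      exact one_ne hL (by linear_combination this)

theorem zind {P : ZMod L → Prop} (h0 : P 0) (h : ∀ i, P i → P (i + 1)) (i : ZMod L) : P i := by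
  obtain ⟨n, rfl⟩ := ZMod.natCast_zmod_surjective i
  induction n with
  | zero => simpa using h0
  | succ n ih => simpa using h _ ih

theorem prim {A : Type*} [AddCommGroup A] (f : ZMod L → A) (hf : ∑ i, f i = 0) (i : ZMod L) :
    ∑ j ∈ range (i + 1).val, f j = ∑ j ∈ range i.val, f j + f i := by
  have h1 : ∑ j ∈ range i.val, f j + f i = ∑ j ∈ range (i.val + 1), f j := by
    rw [sum_range_succ, ZMod.natCast_zmod_val]
  rw [h1]
  have h2 : i + 1 = ((i.val + 1 : ℕ) : ZMod L) := by simp
  rw [h2, ZMod.val_natCast]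
  rcases (Nat.succ_le_of_lt (ZMod.val_lt i)).lt_or_eq with h | h
  · rw [Nat.mod_eq_of_lt h]
  · have h' : i.val + 1 = L := h
    rw [h', Nat.mod_self, sum_range_zero, ← hf]
    symm
    refine sum_bij' (fun j _ => (j : ZMod L)) (fun j _ => j.val) (by simp) ?_ ?_ (by simp) (by simp)
    · intro a _
      exact mem_range.2 (ZMod.val_lt a)
    · intro a ha
      exact ZMod.val_cast_of_lt (mem_range.1 ha)

theorem cnd (hL : 2 ≤ L) : (dualT hL).Cnd := by
  have key : ∀ x y : ZMod L, (dualT hL).Conn univ (0, 0) (x, y) := by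
    intro x
    refine zind ?_ fun y hy => ?_
    · refine zind (P := fun x => (dualT hL).Conn univ (0, 0) (x, 0)) (Gr.conn_refl _ _ _)
        (fun x hx => ?_) x
      have := (Gr.conn_edge (G := dualT hL) (mem_univ ((x + 1, 0), true))).symm
      simp only [dualT, if_true, Prod.mk_sub_mk, add_sub_cancel_right, sub_zero] at this
      exact hx.trans this
    · have := (Gr.conn_edge (G := dualT hL) (mem_univ ((x, y + 1), false))).symm
      simp only [dualT, Bool.false_eq_true, if_false, Prod.mk_sub_mk, add_sub_cancel_right,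
        sub_zero] at this
      exact hy.trans this
  exact fun u v => (key u.1 u.2).symm.trans (key v.1 v.2)

/-- The indicator of an edge set. -/
def chi (X : Finset (Bond L)) (e : Bond L) : ZMod 2 := if e ∈ X then 1 else 0

theorem bd_eq (hL : 2 ≤ L) (X : Finset (Bond L)) (z : Site L) :
    (dualT hL).bd X z = chi X (z, false) + chi X (z, true) + chi X (z + (0, 1), false) +
      chi X (z + (1, 0), true) := by
  have h1 : (dualT hL).bd X z =
      ∑ e, chi X e * (pt ((dualT hL).s e) z + pt ((dualT hL).t e) z) := by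
    simp only [Gr.bd, Finset.sum_apply, Pi.add_apply, chi, ite_mul, one_mul, zero_mul]
    rw [← sum_filter]
    simp
  rw [h1, Fintype.sum_prod_type_right, Fintype.sum_bool]
  have a1 : ∀ (f : Site L → ZMod 2) (y : Site L), ∑ x, f x * pt x y = f y := by
    intro f y
    simp [pt]
  have a2 : ∀ x v : Site L, pt (x - v) z = pt x (z + v) := by
    intro x v
    simp only [pt, eq_sub_iff_add_eq]
  simp only [dualT, if_true, Bool.false_eq_true, if_false, mul_add, sum_add_distrib, a2, a1]
  ring

/-- Crossing numbers with the row and the column through the origin. -/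
def phi (e : Bond L) : ZMod 2 × ZMod 2 :=
  (if e.2 = false ∧ e.1.2 = 0 then 1 else 0, if e.2 = true ∧ e.1.1 = 0 then 1 else 0)

theorem cl_eq (X : Finset (Bond L)) :
    cl phi X = (∑ x, chi X ((x, 0), false), ∑ y, chi X ((0, y), true)) := by
  have h1 : cl phi X = ∑ e, chi X e • phi e := by
    simp only [cl, chi, ite_smul, one_smul, zero_smul]
    rw [← sum_filter]
    simp
  rw [h1]
  refine Prod.ext ?_ ?_
  · rw [Prod.fst_sum, Fintype.sum_prod_type_right, Fintype.sum_bool, Fintype.sum_prod_type,
      Fintype.sum_prod_type]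
    simp [phi]
  · rw [Prod.snd_sum, Fintype.sum_prod_type_right, Fintype.sum_bool, Fintype.sum_prod_type_right,
      Fintype.sum_prod_type_right]
    simp [phi]

def seam (c : Bool × Bool) : Finset (Bond L) := univ.filter (OnSeam c)

def dis (σ : Site L → Bool) : Finset (Bond L) := univ.filter fun e => σ e.1 ≠ σ (tip e)

theorem mem_dis (σ : Site L → Bool) (e : Bond L) : e ∈ dis σ ↔ σ e.1 ≠ σ (tip e) := by
  unfold dis
  rw [mem_filter]
  exact and_iff_right (mem_univ _)

theorem bd_seam (hL : 2 ≤ L) (c : Bool × Bool) : (dualT hL).bd (seam c) = 0 := by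
  funext z
  rw [bd_eq]
  simp only [chi, seam, mem_filter, mem_univ, true_and, OnSeam, Prod.fst_add, Prod.snd_add,
    add_zero, Bool.false_eq_true, Bool.true_eq_false, false_and, and_false, or_false, false_or,
    Pi.zero_apply]
  split_ifs <;> decide

theorem cl_seam (c : Bool × Bool) :
    cl phi (seam (L := L) c) = (if c.1 then 1 else 0, if c.2 then 1 else 0) := by
  rw [cl_eq]
  obtain ⟨_ | _, _ | _⟩ := c <;> simp [chi, seam, OnSeam]

theorem bd_dis (hL : 2 ≤ L) (σ : Site L → Bool) : (dualT hL).bd (dis σ) = 0 := by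
  funext z
  rw [bd_eq]
  simp only [chi, mem_dis, tip, if_true, Bool.false_eq_true, if_false,
    Pi.zero_apply, add_right_comm z (0, 1) (1, 0)]
  generalize σ z = a, σ (z + (1, 0)) = b, σ (z + (0, 1)) = c, σ (z + (1, 0) + (0, 1)) = d
  revert a b c d
  decide

theorem cut (hL : 2 ≤ L) (X : Finset (Bond L)) (hb : (dualT hL).bd X = 0) (hc : cl phi X = 0) :
    ∃ σ, dis σ = X := by
  rw [cl_eq] at hc
  have h1 : ∑ x, chi X ((x, 0), false) = 0 := congrArg Prod.fst hc
  have h2 : ∑ y, chi X ((0, y), true) = 0 := congrArg Prod.snd hc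
  have hf : ∀ x y : ZMod L, chi X ((x, y), false) + chi X ((x, y), true) +
      chi X ((x, y + 1), false) + chi X ((x + 1, y), true) = 0 := by
    intro x y
    have := bd_eq hL X (x, y)
    rw [hb] at this
    simpa using this.symm
  have two : ∀ a : ZMod 2, a + a = 0 := by decide
  have h3 : ∀ x, ∑ y, chi X ((x, y), true) = 0 := by
    refine zind h2 fun x hx => ?_
    have a1 : ∑ y, (chi X ((x, y), false) + chi X ((x, y), true) +
      chi X ((x, y + 1), false) + chi X ((x + 1, y), true)) = 0 := sum_eq_zero fun y _ => hf x y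
    simp only [sum_add_distrib] at a1
    rw [hx, add_zero, Equiv.sum_comp (Equiv.addRight (1 : ZMod L))
      (fun y => chi X ((x, y), false)) |>.symm] at a1
    simp only [Equiv.coe_addRight] at a1
    rwa [two, zero_add] at a1
  set g : ZMod L → ZMod L → ZMod 2 := fun x y =>
    ∑ j ∈ range x.val, chi X (((j : ZMod L), 0), false) +
      ∑ j ∈ range y.val, chi X ((x, (j : ZMod L)), true) with hg
  have v : ∀ x y, g x (y + 1) = g x y + chi X ((x, y), true) := by
    intro x y
    simp only [hg]
    rw [prim (fun y => chi X ((x, y), true)) (h3 x), add_assoc]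
  have h : ∀ x y, g (x + 1) y = g x y + chi X ((x, y), false) := by
    intro x
    refine zind ?_ fun y hy => ?_
    · simp only [hg, ZMod.val_zero, sum_range_zero, add_zero]
      exact prim (fun x => chi X ((x, 0), false)) h1 x
    · rw [v, v, hy]
      have := hf x y
      have t1 := two (chi X ((x, y), true))
      have t2 := two (chi X ((x, y + 1), false))
      linear_combination this - t1 - t2
  refine ⟨fun z => decide (g z.1 z.2 = 1), ?_⟩
  have fin : ∀ (a : ZMod 2) (p : Prop) [Decidable p],
      (decide (a = 1) ≠ decide (a + (if p then 1 else 0) = 1)) ↔ p := by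
    intro a p _
    by_cases hp : p <;> rcases z01 a with rfl | rfl <;> simp [hp]
  ext ⟨⟨x, y⟩, _ | _⟩
  · simp only [mem_dis, tip, Bool.false_eq_true, if_false, Prod.mk_add_mk, add_zero, h]
    exact fin _ _
  · simp only [mem_dis, tip, if_true, Prod.mk_add_mk, add_zero, v]
    exact fin _ _

theorem ham_eq (c : Bool × Bool) (J : Bond L → ℝ) (σ : Site L → Bool) :
    ham (twist c J) σ = -∑ e, J e + 2 * wt J (dis σ ∆ seam c) := by
  have h1 : wt J (dis σ ∆ seam c) = ∑ e, if e ∈ dis σ ∆ seam c then J e else 0 := by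
    rw [← sum_filter]
    simp [wt]
  rw [h1, ham, mul_sum, ← sum_neg_distrib, ← sum_neg_distrib, ← sum_add_distrib]
  refine sum_congr rfl fun e _ => ?_
  simp only [twist, mem_symmDiff, dis, seam, mem_filter, mem_univ, true_and]
  by_cases hs : OnSeam c e <;> cases σ e.1 <;> cases σ (tip e) <;> simp [hs, spin] <;> ring

theorem det_bound (hL : 2 ≤ L) (J : Bond L → ℝ) (m : ℝ)
    (h1 : ∀ r s, |(dualT hL).nu J (pt r + pt s) - (dualT hL).nu J 0| ≤ m) (h2 : ∀ e, |J e| ≤ m)
    (c c' : Bool × Bool) : |ground (twist c J) - ground (twist c' J)| ≤ 48 * m := by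
  set G := dualT hL with hG
  have hm : 0 ≤ m := (abs_nonneg _).trans (h2 ((0, 0), false))
  obtain ⟨S, s1, s2⟩ := NuAux.nu_ex G J (B := 0) ⟨∅, G.bd_empty⟩
  have low : ∀ c, -∑ e, J e + 2 * G.nu J 0 ≤ ground (twist c J) := by
    intro c
    refine le_ciInf fun σ => ?_
    have := NuAux.nu_le G J (B := 0) (S := dis σ ∆ seam c) (by
      rw [G.bd_symmDiff, bd_dis, bd_seam, add_zero])
    rw [ham_eq]
    linarith
  have up : ∀ c, ground (twist c J) ≤ -∑ e, J e + 2 * G.nu J 0 + 48 * m := by
    intro c
    obtain ⟨X, x1, x2, x3⟩ := cheap (G := G) (w := sgn S J) hm (fun X hX => by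
        have a1 := wt_symmDiff J S X
        have a2 := NuAux.nu_le G J (B := 0) (S := S ∆ X) (by rw [G.bd_symmDiff, s1, hX, add_zero])
        linarith) (fun X r s hX => by
        have a1 := wt_symmDiff J S X
        have a2 := NuAux.nu_le G J (B := pt r + pt s) (S := S ∆ X) (by
          rw [G.bd_symmDiff, s1, hX, zero_add])
        have a3 := (abs_le.1 (h1 r s)).1
        linarith) (0, 0) (fun q => by
        obtain ⟨P, -, hP⟩ := cnd hL (0, 0) q
        obtain ⟨Q, q1, q2⟩ := NuAux.nu_ex G J ⟨P, hP⟩
        refine ⟨S ∆ Q, by rw [G.bd_symmDiff, s1, q1, zero_add], ?_⟩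
        have a1 := wt_symmDiff J S (S ∆ Q)
        rw [symmDiff_symmDiff_cancel_left] at a1
        have a3 := (abs_le.1 (h1 (0, 0) q)).2
        linarith) (fun e => by
        have := abs_le.1 (h2 e)
        unfold sgn
        split_ifs <;> linarith) phi (fun a => by
        refine ⟨seam (decide (a.1 = 1), decide (a.2 = 1)), bd_seam hL _, ?_⟩
        rw [cl_seam]
        revert a
        decide) (cl phi S + cl phi (seam (L := L) c))
    obtain ⟨σ, hσ⟩ := cut hL ((S ∆ X) ∆ seam c) (by
      rw [G.bd_symmDiff, G.bd_symmDiff, s1, x1, bd_seam, add_zero, add_zero]) (by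
      rw [cl_symmDiff, cl_symmDiff, x2, ← add_assoc, two_self, zero_add, two_self])
    have a1 : ground (twist c J) ≤ ham (twist c J) σ := ciInf_le (Finite.bddBelow_range _) σ
    rw [ham_eq, hσ, symmDiff_symmDiff_cancel_right, wt_symmDiff] at a1
    linarith
  rw [abs_le]
  constructor <;> linarith [low c, low c', up c, up c']

end Pool.Agent.P.MP_81d17b_pr.To
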