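import Pool.Agent.P.MP_81d17b_pr.To.Cut

/-! A unit flow of energy `O(log L)` between any two squares of the torus. -/

namespace Pool.Agent.P.MP_81d17b_pr.To

open Finset Pool.Agent.P.MP_81d17b_pr.St

variable {L : ℕ} [NeZero L]

theorem dv_eq (hL : 2 ≤ L) (θ : Bond L → ℝ) (z : Site L) :
    (dualT hL).dv θ z = θ (z, false) + θ (z, true) - θ (z + (0, 1), false) -
      θ (z + (1, 0), true) := by
  have a1 : ∀ b, ∑ x, θ (x, b) * (if (dualT hL).s (x, b) = z then 1 else 0) = θ (z, b) := by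
    intro b
    rw [sum_eq_single z, if_pos (show (dualT hL).s (z, b) = z from rfl), mul_one]
    · intro x _ hx
      rw [if_neg (show ¬ (dualT hL).s (x, b) = z from hx), mul_zero]
    · simp
  rw [Gr.dv, Fintype.sum_prod_type_right, Fintype.sum_bool]
  simp only [mul_sub, sum_sub_distrib, a1]
  simp only [dualT, if_true, Bool.false_eq_true, if_false, sub_eq_iff_eq_add]
  simp
  ring

theorem sum_val (g : ℕ → ℝ) : ∑ x : ZMod L, g x.val = ∑ j ∈ range L, g j := by
  refine sum_bij' (fun j _ => j.val) (fun j _ => (j : ZMod L)) ?_ (by simp) (by simp) ?_ (by simp)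
  · intro a _
    exact mem_range.2 (ZMod.val_lt a)
  · intro a ha
    exact ZMod.val_cast_of_lt (mem_range.1 ha)

/-- The urn flow. -/
noncomputable def pp (L i j : ℕ) : ℝ :=
  if i + j + 1 < L then (i + 1) / ((i + j + 1) * (i + j + 2)) else 0

theorem pp_pred (x : ZMod L) (j : ℕ) : pp L (x - 1).val j =
    if x.val + j < L then (x.val : ℝ) / ((x.val + j) * (x.val + j + 1)) else 0 := by
  have h1 : x = (((x - 1).val + 1 : ℕ) : ZMod L) := by simp
  have h2 := ZMod.val_lt (x - 1)
  generalize (x - 1).val = k at h1 h2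
  rw [h1, ZMod.val_natCast]
  rcases (Nat.succ_le_of_lt h2).lt_or_eq with h | h
  · rw [Nat.mod_eq_of_lt h, pp, add_right_comm k 1 j]
    push_cast
    split_ifs
    · ring
    · rfl
  · have h' : k + 1 = L := h
    rw [h', Nat.mod_self, pp, if_neg (by omega)]
    simp

noncomputable def pol (r : Site L) (e : Bond L) : ℝ :=
  if e.2 then pp L (r.1 - e.1.1).val (r.2 - e.1.2).val else pp L (r.2 - e.1.2).val (r.1 - e.1.1).val

theorem dv_pol (hL : 2 ≤ L) (r z : Site L) : (dualT hL).dv (pol r) z =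
    (if z = r then 1 else 0) - (if z.1 + z.2 = r.1 + r.2 + 1 then 1 else 0) / L := by
  rw [dv_eq]
  simp only [pol, if_true, Bool.false_eq_true, if_false, Prod.fst_add, Prod.snd_add, add_zero,
    ← sub_sub, pp_pred]
  have h1 : z = r ↔ (r.1 - z.1).val + (r.2 - z.2).val = 0 := by
    rw [Nat.add_eq_zero_iff, ZMod.val_eq_zero, ZMod.val_eq_zero, sub_eq_zero, sub_eq_zero,
      Prod.ext_iff, eq_comm, eq_comm (a := z.2)]
  have l1 := ZMod.val_lt (r.1 - z.1)
  have l2 := ZMod.val_lt (r.2 - z.2)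
  have h2 : z.1 + z.2 = r.1 + r.2 + 1 ↔ (r.1 - z.1).val + (r.2 - z.2).val + 1 = L := by
    have a1 : (((r.1 - z.1).val + (r.2 - z.2).val + 1 : ℕ) : ZMod L) =
        r.1 + r.2 + 1 - (z.1 + z.2) := by
      simp only [Nat.cast_add, ZMod.natCast_val, ZMod.cast_id', id_eq, Nat.cast_one]
      ring
    rw [eq_comm, ← sub_eq_zero, ← a1, ZMod.natCast_eq_zero_iff]
    constructor
    · rintro ⟨k, hk⟩
      rcases k with _ | _ | k
      · omega
      · omega
      · nlinarith
    · intro h
      rw [h]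
  simp only [h1, h2]
  generalize (r.1 - z.1).val = a at *
  generalize (r.2 - z.2).val = b at *
  simp only [pp, add_comm b a]
  have p1 : (0 : ℝ) < (a : ℝ) + b + 1 := by positivity
  have p2 : (0 : ℝ) < (a : ℝ) + b + 2 := by positivity
  by_cases c0 : a + b = 0
  · obtain ⟨rfl, rfl⟩ := Nat.add_eq_zero_iff.1 c0
    simp only [if_pos (show 0 + 0 + 1 < L by omega), if_pos (show 0 + 0 < L by omega),
      if_neg (show ¬ 0 + 0 + 1 = L by omega)]
    norm_num
  have p0 : (0 : ℝ) < (a : ℝ) + b := by exact_mod_cast Nat.pos_of_ne_zero c0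
  rw [if_neg c0, add_comm (b : ℝ) a]
  rcases lt_trichotomy (a + b + 1) L with c | c | c
  · simp only [if_pos c, if_pos (show a + b < L by omega), if_neg c.ne]
    field_simp
    ring
  · simp only [if_neg c.not_lt, if_pos (show a + b < L by omega), if_pos c]
    rw [← c]
    push_cast
    field_simp
    ring
  · simp only [if_neg c.not_gt, if_neg (show ¬ a + b < L by omega), if_neg c.ne']
    simp

theorem pp_sq (L i j : ℕ) : pp L i j ^ 2 + pp L j i ^ 2 ≤ 1 / ((i : ℝ) + j + 1) ^ 2 := by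
  simp only [pp, add_comm j i, add_comm (j : ℝ) i]
  have p1 : (0 : ℝ) < (i : ℝ) + j + 1 := by positivity
  have p2 : (0 : ℝ) < (i : ℝ) + j + 2 := by positivity
  split_ifs
  · rw [div_pow, div_pow, ← add_div, div_le_div_iff₀ (by positivity) (by positivity), mul_pow,
      one_mul, mul_comm]
    refine mul_le_mul_of_nonneg_left ?_ (by positivity)
    have : (0 : ℝ) ≤ (i + 1) * (j + 1) := by positivity
    nlinarith
  · rw [zero_pow two_ne_zero, add_zero]
    exact div_nonneg zero_le_one (sq_nonneg _)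

theorem tele (i n : ℕ) : ∑ j ∈ range n, 1 / ((i : ℝ) + j + 1) ^ 2 ≤
    (2 : ℝ) / (i + 1) - 2 / (i + n + 1) := by
  induction n with
  | zero => simp
  | succ n ih =>
    rw [sum_range_succ]
    have p1 : (0 : ℝ) < (i : ℝ) + n + 1 := by positivity
    have : 1 / ((i : ℝ) + n + 1) ^ 2 ≤ 2 / (i + n + 1) - 2 / (i + (n + 1 : ℕ) + 1) := by
      push_cast
      rw [div_sub_div _ _ p1.ne' (by positivity), div_le_div_iff₀ (by positivity) (by positivity)]
      have : (0 : ℝ) ≤ (i : ℝ) + n := by positivity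
      nlinarith
    linarith

theorem pol_energy (r : Site L) : ∑ e, pol r e ^ 2 ≤ 2 * (1 + Real.log L) := by
  rw [Fintype.sum_prod_type]
  simp only [Fintype.sum_bool, pol, if_true, Bool.false_eq_true, if_false]
  refine (sum_le_sum fun z _ => pp_sq _ _ _).trans ?_
  rw [Fintype.sum_prod_type]
  have h1 : ∀ x : ZMod L, ∑ y : ZMod L,
      1 / ((((r.1 - x).val : ℕ) : ℝ) + ((r.2 - y).val : ℕ) + 1) ^ 2 ≤
        (2 : ℝ) / ((r.1 - x).val + 1) := by
    intro x
    rw [show ∑ y : ZMod L, 1 / ((((r.1 - x).val : ℕ) : ℝ) + ((r.2 - y).val : ℕ) + 1) ^ 2 = _ from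
      Equiv.sum_comp (Equiv.subLeft r.2)
        fun y : ZMod L => 1 / ((((r.1 - x).val : ℕ) : ℝ) + (y.val : ℕ) + 1) ^ 2,
      sum_val fun j => 1 / ((((r.1 - x).val : ℕ) : ℝ) + j + 1) ^ 2]
    refine (tele _ _).trans (sub_le_self _ (by positivity))
  refine (sum_le_sum fun x _ => h1 x).trans ?_
  rw [show ∑ x : ZMod L, 2 / ((((r.1 - x).val : ℕ) : ℝ) + 1) = _ from
      Equiv.sum_comp (Equiv.subLeft r.1) fun x : ZMod L => 2 / (((x.val : ℕ) : ℝ) + 1),
    sum_val fun j => 2 / ((j : ℝ) + 1)]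
  have h2 := harmonic_le_one_add_log L
  have h3 : ((harmonic L : ℚ) : ℝ) = ∑ j ∈ range L, ((j : ℝ) + 1)⁻¹ := by
    simp [harmonic]
  rw [h3] at h2
  simp only [div_eq_mul_inv, ← mul_sum]
  linarith

theorem step_eq (α k : ZMod L) : ∑ j ∈ range k.val, (if (j : ZMod L) = α then (1 : ℝ) else 0) =
    if α.val < k.val then 1 else 0 := by
  rw [sum_congr rfl (g := fun j => if j = α.val then (1 : ℝ) else 0), sum_ite_eq']
  · simp only [mem_range]
  intro j hj
  refine if_congr ⟨fun h => ?_, fun h => ?_⟩ rfl rfl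
  · rw [← h, ZMod.val_cast_of_lt ((mem_range.1 hj).trans (ZMod.val_lt k))]
  · rw [h, ZMod.natCast_zmod_val]

theorem flow (hL : 2 ≤ L) (r s : Site L) : ∃ θ : Bond L → ℝ,
    (∀ z, (dualT hL).dv θ z = (if z = s then 1 else 0) - (if z = r then 1 else 0)) ∧
      ∑ e, θ e ^ 2 ≤ 36 * Real.log L := by
  set α := r.1 + r.2 + 1 with hα
  set β := s.1 + s.2 + 1 with hβ
  set f : ZMod L → ℝ := fun k => (if k = α then 1 else 0) - (if k = β then 1 else 0) with hf
  set F : ZMod L → ℝ := fun k => ∑ j ∈ range k.val, f j with hF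
  have hL0 : (0 : ℝ) < L := by exact_mod_cast Nat.pos_of_neZero L
  have f0 : ∑ k, f k = 0 := by simp [hf, sum_sub_distrib]
  have F1 : ∀ k, F (k + 1) = F k + f k := prim f f0
  have F2 : ∀ k, F k ^ 2 ≤ 1 := by
    intro k
    simp only [hF, hf, sum_sub_distrib, step_eq]
    split_ifs <;> norm_num
  set τ : Bond L → ℝ := fun e => if e.2 then F (e.1.1 + e.1.2) / L else 0 with hτ
  refine ⟨fun e => pol s e - pol r e + τ e, fun z => ?_, ?_⟩
  · have a1 := dv_pol hL s z
    have a2 := dv_pol hL r z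
    rw [dv_eq] at a1 a2 ⊢
    simp only [hτ, if_true, Bool.false_eq_true, if_false, Prod.fst_add, Prod.snd_add, add_zero,
      add_right_comm z.1 1 z.2, F1, hf]
    rw [← hα] at a2
    rw [← hβ] at a1
    linear_combination a1 - a2
  · have a1 := pol_energy s
    have a2 := pol_energy r
    have a3 : ∑ e, τ e ^ 2 ≤ 1 := by
      rw [Fintype.sum_prod_type]
      simp only [Fintype.sum_bool, hτ, if_true, Bool.false_eq_true, if_false]
      refine (sum_le_sum (g := fun _ => 1 / (L : ℝ) ^ 2) fun z _ => ?_).trans ?_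
      · rw [div_pow, zero_pow two_ne_zero, add_zero]
        exact div_le_div_of_nonneg_right (F2 _) (by positivity)
      · simp only [sum_const, card_univ, Fintype.card_prod, ZMod.card, nsmul_eq_mul]
        push_cast
        field_simp
        exact le_rfl
    have a4 : ∑ e, (pol s e - pol r e + τ e) ^ 2 ≤
        ∑ e, 3 * (pol s e ^ 2 + pol r e ^ 2 + τ e ^ 2) := sum_le_sum fun e _ => by
      nlinarith [sq_nonneg (pol s e + pol r e), sq_nonneg (pol s e - τ e),
        sq_nonneg (pol r e + τ e)]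
    simp only [← mul_sum, sum_add_distrib] at a4
    have a5 : Real.log 2 ≤ Real.log L := Real.log_le_log two_pos (by exact_mod_cast hL)
    have a6 := Real.log_two_gt_d9
    linarith

end Pool.Agent.P.MP_81d17b_pr.To
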