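import Pool.Agent.P.MP_81d17b_pr.St.GFinal
import Pool.Agent.P.MP_81d17b_pr.To.Flow

/-! Tail bound for the differences of the ground state energies on the torus. -/

namespace Pool.Agent.P.MP_81d17b_pr.To

open Finset MeasureTheory ProbabilityTheory Pool.Agent.P.MP_81d17b_pr.St

theorem coreGauss {V E : Type} [Fintype V] [DecidableEq V] [Fintype E] [DecidableEq E]
    (G : Gr V E) (θ : E → ℝ) (hG : G.Cnd) (T : Finset V) (hT : Odd T.card) :
    ∫⁻ J, ENNReal.ofReal (Real.exp (∑ x, G.dv θ x * G.nu J (ind T + pt x)))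
        ∂(Measure.pi fun _ : E => gaussianReal 0 1) ≤
      ENNReal.ofReal (Real.exp ((∑ e, θ e ^ 2) / 2)) := by
  have key := corePF G (fun k => all_Core0 _) (pf_Nu _) (fun _ => gaussianReal 0 1) (fun _ => 1)
    (fun _ _ => 0) (fun _ => by simp) (fun e t => by
      rw [charFun_gaussianReal]
      simp only [zero_mul, mul_zero, ne_eq, OfNat.ofNat_ne_zero, not_false_eq_true, zero_pow,
        add_zero, inv_one, tprod_one, mul_one, Complex.ofReal_zero, zero_sub, one_mul]
      push_cast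
      congr 1
      ring) θ (fun _ _ => by simp) hG T hT
  refine key.trans_eq ?_
  congr 1
  rw [sum_div, Real.exp_sum]
  refine prod_congr rfl fun e _ => ?_
  simp

theorem chern {Ω : Type*} [MeasurableSpace Ω] (μ : Measure Ω) (F : Ω → ℝ) (hF : Measurable F)
    (R m : ℝ) (hR : 0 < R) (hm : 0 ≤ m)
    (h : ∀ γ : ℝ, ∫⁻ x, ENNReal.ofReal (Real.exp (γ * F x)) ∂μ ≤
      ENNReal.ofReal (Real.exp (γ ^ 2 * R / 2))) :
    μ {x | m < |F x|} ≤ ENNReal.ofReal (2 * Real.exp (-m ^ 2 / (2 * R))) := by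
  have key : ∀ γ : ℝ, γ ^ 2 = (m / R) ^ 2 →
      μ {x | m ^ 2 / R ≤ γ * F x} ≤ ENNReal.ofReal (Real.exp (-m ^ 2 / (2 * R))) := by
    intro γ hγ
    have h1 := meas_ge_le_lintegral_div (μ := μ)
      (f := fun x => ENNReal.ofReal (Real.exp (γ * F x)))
      (ENNReal.measurable_ofReal.comp (Real.measurable_exp.comp (hF.const_mul γ))).aemeasurable
      (ε := ENNReal.ofReal (Real.exp (m ^ 2 / R))) (by simpa using Real.exp_pos _)
      ENNReal.ofReal_ne_top
    refine (measure_mono fun x hx => ?_).trans (h1.trans ?_)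
    · exact ENNReal.ofReal_le_ofReal (Real.exp_le_exp.2 hx)
    · refine (ENNReal.div_le_div_right (h γ) _).trans_eq ?_
      rw [← ENNReal.ofReal_div_of_pos (Real.exp_pos _), ← Real.exp_sub, hγ]
      congr 2
      field_simp
      ring
  have hq : 0 ≤ m / R := div_nonneg hm hR.le
  have e1 : m ^ 2 / R = m / R * m := by ring
  refine (measure_mono (t := {x | m ^ 2 / R ≤ m / R * F x} ∪ {x | m ^ 2 / R ≤ -(m / R) * F x})
    fun x hx => ?_).trans ((measure_union_le _ _).trans ?_)
  · rcases lt_abs.1 (show m < |F x| from hx) with h1 | h1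
    · exact Or.inl (e1 ▸ mul_le_mul_of_nonneg_left h1.le hq)
    · refine Or.inr ?_
      have := mul_le_mul_of_nonneg_left h1.le hq
      simp only [Set.mem_ofPred_eq]
      linarith
  · rw [two_mul, ENNReal.ofReal_add (Real.exp_pos _).le (Real.exp_pos _).le]
    exact add_le_add (key _ rfl) (key _ (neg_sq _))

variable {L : ℕ} [NeZero L]

theorem pair_tail (hL : 2 ≤ L) (m : ℝ) (hm : 0 ≤ m) (r s : Site L) :
    (Measure.pi fun _ : Bond L => gaussianReal 0 1)
        {J | m < |(dualT hL).nu J (pt r + pt s) - (dualT hL).nu J 0|} ≤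
      ENNReal.ofReal (2 * Real.exp (-m ^ 2 / (2 * (36 * Real.log L)))) := by
  have hl : 0 < Real.log L := Real.log_pos (by exact_mod_cast hL)
  have hc := (pf_Nu (dualT hL)).2.1
  refine chern _ _ ((hc _).sub (hc _)).measurable _ m (by positivity) hm fun γ => ?_
  obtain ⟨θ, h1, h2⟩ := flow hL r s
  have key := coreGauss (dualT hL) (fun e => γ * θ e) (cnd hL) {r} (by simp)
  have a1 : ∀ x, (dualT hL).dv (fun e => γ * θ e) x = γ * (dualT hL).dv θ x := by
    intro x
    unfold Gr.dv
    rw [mul_sum]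
    exact sum_congr rfl fun e _ => by ring
  have a2 : (ind {r} : Site L → ZMod 2) = pt r := by
    funext z
    simp [ind, pt]
  simp only [a1, h1, a2, mul_assoc, ← mul_sum, sub_mul, sum_sub_distrib, ite_mul, one_mul,
    zero_mul, sum_ite_eq', mem_univ, if_true, fn_add_self, mul_pow] at key
  refine key.trans (ENNReal.ofReal_le_ofReal (Real.exp_le_exp.2 ?_))
  have := mul_le_mul_of_nonneg_left h2 (sq_nonneg γ)
  linarith

theorem bond_tail (hL : 2 ≤ L) (m : ℝ) (hm : 0 ≤ m) (e : Bond L) :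
    (Measure.pi fun _ : Bond L => gaussianReal 0 1) {J | m < |J e|} ≤
      ENNReal.ofReal (2 * Real.exp (-m ^ 2 / (2 * (36 * Real.log L)))) := by
  have a5 : Real.log 2 ≤ Real.log L := Real.log_le_log two_pos (by exact_mod_cast hL)
  have a6 := Real.log_two_gt_d9
  refine chern _ _ (measurable_pi_apply e) _ m (by linarith) hm fun γ => ?_
  have h1 := (measurePreserving_eval (fun _ : Bond L => gaussianReal 0 1) e).lintegral_comp
    (f := fun x : ℝ => ENNReal.ofReal (Real.exp (γ * x))) (by fun_prop)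
  refine h1.trans_le ?_
  rw [← ofReal_integral_eq_lintegral_ofReal (integrable_exp_mul_gaussianReal γ)
    (ae_of_all _ fun x => (Real.exp_pos _).le)]
  have h2 := congrFun (mgf_fun_id_gaussianReal (μ := 0) (v := 1)) γ
  rw [mgf] at h2
  rw [h2]
  refine ENNReal.ofReal_le_ofReal (Real.exp_le_exp.2 ?_)
  have := mul_le_mul_of_nonneg_left (show (1 : ℝ) ≤ 36 * Real.log L by linarith) (sq_nonneg γ)
  simp only [zero_mul, NNReal.coe_one, one_mul, zero_add]
  linarith

theorem torus (hL : 2 ≤ L) (t : ℝ) (ht : 0 ≤ t) :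
    (Measure.pi fun _ : Bond L => gaussianReal 0 1)
        {J | ∃ c c', t < |ground (twist c J) - ground (twist c' J)|} ≤
      ENNReal.ofReal (3 * L ^ 4 * Real.exp (-t ^ 2 / (200000 * Real.log L))) := by
  have hl : 0 < Real.log L := Real.log_pos (by exact_mod_cast hL)
  have hm : 0 ≤ t / 48 := by positivity
  set b := 2 * Real.exp (-(t / 48) ^ 2 / (2 * (36 * Real.log L))) with hb
  have b0 : 0 ≤ b := by positivity
  refine (measure_mono (t := (⋃ p : Site L × Site L,
      {J | t / 48 < |(dualT hL).nu J (pt p.1 + pt p.2) - (dualT hL).nu J 0|}) ∪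
      ⋃ e : Bond L, {J | t / 48 < |J e|}) fun J hJ => ?_).trans ((measure_union_le _ _).trans ?_)
  · by_contra hno
    simp only [Set.mem_union, Set.mem_iUnion, Set.mem_ofPred_eq, not_or, not_exists, not_lt] at hno
    obtain ⟨c, c', hc⟩ := hJ
    have := det_bound hL J (t / 48) (fun r s => hno.1 (r, s)) hno.2 c c'
    linarith
  refine (add_le_add ((measure_iUnion_fintype_le _ _).trans
    (sum_le_sum fun p _ => pair_tail hL _ hm p.1 p.2)) ((measure_iUnion_fintype_le _ _).trans
    (sum_le_sum fun e _ => bond_tail hL _ hm e))).trans ?_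
  rw [← ENNReal.ofReal_sum_of_nonneg fun _ _ => b0, ← ENNReal.ofReal_sum_of_nonneg fun _ _ => b0,
    ← ENNReal.ofReal_add (sum_nonneg fun _ _ => b0) (sum_nonneg fun _ _ => b0)]
  refine ENNReal.ofReal_le_ofReal ?_
  simp only [sum_const, card_univ, Fintype.card_prod, ZMod.card, Fintype.card_bool, nsmul_eq_mul]
  push_cast
  have h1 : b ≤ 2 * Real.exp (-t ^ 2 / (200000 * Real.log L)) := by
    refine mul_le_mul_of_nonneg_left (Real.exp_le_exp.2 ?_) zero_le_two
    rw [div_le_div_iff₀ (by positivity) (by positivity)]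
    have := mul_nonneg (sq_nonneg t) hl.le
    nlinarith
  have h2 : (2 : ℝ) ≤ L := by exact_mod_cast hL
  have h3 : (4 : ℝ) ≤ L * L := by nlinarith
  have h4 : (L : ℝ) * L * (L * L) + L * L * 2 ≤ 3 / 2 * L ^ 4 := by nlinarith
  calc _ = ((L : ℝ) * L * (L * L) + L * L * 2) * b := by ring
    _ ≤ 3 / 2 * L ^ 4 * (2 * Real.exp (-t ^ 2 / (200000 * Real.log L))) :=
      mul_le_mul h4 h1 b0 (by positivity)
    _ = _ := by ring

end Pool.Agent.P.MP_81d17b_pr.To
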